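import Pool.Agent.H58.FL.TargetsD

/-!
# Row R5 of board fld_modules: the exchange property
-/

open Topology

namespace Pool.Agent.H39.FL

open Pool.Agent.H58.FL Pool.Agent.H59 Pool.Agent.H48.FR

private theorem r5_par (m0 m1 m2 m3 m4 : ℤ) (h0 : m0 = 0 ∨ m0 = 1 ∨ m0 = -1)
    (h1 : m1 = 0 ∨ m1 = 1 ∨ m1 = -1) (h2 : m2 = 0 ∨ m2 = 1 ∨ m2 = -1)
    (h3 : m3 = 0 ∨ m3 = 1 ∨ m3 = -1) (h4 : m4 = 1 ∨ m4 = -1)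
    (hs : m0 - m1 + m2 - m3 + m4 = 0)
    (a0 : ¬ (m1 ≠ 0 ∧ m2 ≠ 0 ∧ m3 ≠ 0)) (a1 : ¬ (m0 ≠ 0 ∧ m2 ≠ 0 ∧ m3 ≠ 0))
    (a2 : ¬ (m0 ≠ 0 ∧ m1 ≠ 0 ∧ m3 ≠ 0)) (a3 : ¬ (m0 ≠ 0 ∧ m1 ≠ 0 ∧ m2 ≠ 0)) :
    (m0 ≠ 0 ∧ m1 = 0 ∧ m2 = 0 ∧ m3 = 0) ∨ (m0 = 0 ∧ m1 ≠ 0 ∧ m2 = 0 ∧ m3 = 0) ∨
    (m0 = 0 ∧ m1 = 0 ∧ m2 ≠ 0 ∧ m3 = 0) ∨ (m0 = 0 ∧ m1 = 0 ∧ m2 = 0 ∧ m3 ≠ 0) := by
  have e4 : ¬ (m0 = 0 ∧ m1 = 0 ∧ m2 = 0 ∧ m3 = 0) := by omega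
  have par : ∀ m : ℤ, (m = 0 ∨ m = 1 ∨ m = -1) → (m ≠ 0 ↔ m % 2 = 1) := by
    intro m h
    rcases h with h | h | h <;> subst h <;> decide
  have k0 := par m0 h0
  have k1 := par m1 h1
  have k2 := par m2 h2
  have k3 := par m3 h3
  have k4 : m4 % 2 = 1 := (par m4 (Or.inr h4)).1 (by omega)
  have hs2 : (m0 + m1 + m2 + m3 + m4) % 2 = 0 := by omega
  by_cases z0 : m0 = 0 <;> by_cases z1 : m1 = 0 <;> by_cases z2 : m2 = 0 <;>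
    by_cases z3 : m3 = 0 <;> simp only [z0, z1, z2, z3, ne_eq, not_true, not_false_iff, and_true, and_false, or_false, false_or, or_true, true_or, and_self, false_iff, true_iff] at * <;> omega

private theorem r5_int {x : ℝ} (h : x = 0 ∨ x = 1 ∨ x = -1) :
    ∃ m : ℤ, x = (m : ℝ) ∧ (m = 0 ∨ m = 1 ∨ m = -1) := by
  rcases h with h | h | h
  · exact ⟨0, by rw [h]; simp, Or.inl rfl⟩
  · exact ⟨1, by rw [h]; simp, Or.inr (Or.inl rfl)⟩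
  · exact ⟨-1, by rw [h]; simp, Or.inr (Or.inr rfl)⟩

theorem pf_R5 (hMN4 : T_MN4) (hR5A : T_R5A) : T_R5 := by
  intro E _ _ p hp hne
  obtain ⟨-, hM, hC⟩ := hMN4 E
  have hcl : ∀ {n : ℕ} (f : Fin n → Fin 5), Cl (p ∘ f) := fun f =>
    ⟨fun i => hp.1 _, fun i j => hp.2 _ _⟩
  have hv : ∀ i j k l : Fin 5, mn (p i) (p j) (p k) (p l) = 0 ∨
      mn (p i) (p j) (p k) (p l) = 1 ∨ mn (p i) (p j) (p k) (p l) = -1 :=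
    fun i j k l => (hM (p ∘ ![i, j, k, l]) (hcl _)).1
  have e1 : ∀ i j k l : Fin 5, mn (p j) (p i) (p k) (p l) = -mn (p i) (p j) (p k) (p l) :=
    fun i j k l => (hM (p ∘ ![i, j, k, l]) (hcl _)).2.1
  have e2 : ∀ i j k l : Fin 5, mn (p i) (p k) (p j) (p l) = -mn (p i) (p j) (p k) (p l) :=
    fun i j k l => (hM (p ∘ ![i, j, k, l]) (hcl _)).2.2.1
  have e3 : ∀ i j k l : Fin 5, mn (p i) (p j) (p l) (p k) = -mn (p i) (p j) (p k) (p l) :=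
    fun i j k l => (hM (p ∘ ![i, j, k, l]) (hcl _)).2.2.2
  obtain ⟨m0, q0, h0⟩ := r5_int (hv 1 2 3 4)
  obtain ⟨m1, q1, h1⟩ := r5_int (hv 0 2 3 4)
  obtain ⟨m2, q2, h2⟩ := r5_int (hv 0 1 3 4)
  obtain ⟨m3, q3, h3⟩ := r5_int (hv 0 1 2 4)
  obtain ⟨m4, q4, h4⟩ := r5_int (hv 0 1 2 3)
  have hs : m0 - m1 + m2 - m3 + m4 = 0 := by
    have h := hC (p 0) (p 1) (p 2) (p 3) (p 4)
    rw [q0, q1, q2, q3, q4] at h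
    exact_mod_cast h
  have k4 : m4 = 1 ∨ m4 = -1 := by
    rcases h4 with h | h
    · exact absurd (by rw [q4, h]; simp) hne
    · exact h
  have n4 : mn (p 0) (p 1) (p 2) (p 3) ≠ 0 := hne
  have cz : ∀ m : ℤ, m ≠ 0 → (m : ℝ) ≠ 0 := fun m h => by exact_mod_cast h
  have a0 : ¬ (m1 ≠ 0 ∧ m2 ≠ 0 ∧ m3 ≠ 0) := by
    rintro ⟨u1, u2, u3⟩
    refine hR5A E p hp n4 ?_ ?_ ?_
    · rw [q3]; exact cz _ u3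
    · rw [q2]; exact cz _ u2
    · rw [q1]; exact cz _ u1
  have a1 : ¬ (m0 ≠ 0 ∧ m2 ≠ 0 ∧ m3 ≠ 0) := by
    rintro ⟨u0, u2, u3⟩
    refine hR5A E (p ∘ ![1, 0, 2, 3, 4]) (hcl _) ?_ ?_ ?_ ?_
    · show mn (p 1) (p 0) (p 2) (p 3) ≠ 0
      rw [e1]; exact neg_ne_zero.2 n4
    · show mn (p 1) (p 0) (p 2) (p 4) ≠ 0
      rw [e1, q3]; exact neg_ne_zero.2 (cz _ u3)
    · show mn (p 1) (p 0) (p 3) (p 4) ≠ 0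
      rw [e1, q2]; exact neg_ne_zero.2 (cz _ u2)
    · show mn (p 1) (p 2) (p 3) (p 4) ≠ 0
      rw [q0]; exact cz _ u0
  have a2 : ¬ (m0 ≠ 0 ∧ m1 ≠ 0 ∧ m3 ≠ 0) := by
    rintro ⟨u0, u1, u3⟩
    refine hR5A E (p ∘ ![2, 0, 1, 3, 4]) (hcl _) ?_ ?_ ?_ ?_
    · show mn (p 2) (p 0) (p 1) (p 3) ≠ 0
      rw [e1 0 2 1 3, e2 0 1 2 3, neg_neg]; exact n4
    · show mn (p 2) (p 0) (p 1) (p 4) ≠ 0
      rw [e1 0 2 1 4, e2 0 1 2 4, neg_neg, q3]; exact cz _ u3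
    · show mn (p 2) (p 0) (p 3) (p 4) ≠ 0
      rw [e1 0 2 3 4, q1]; exact neg_ne_zero.2 (cz _ u1)
    · show mn (p 2) (p 1) (p 3) (p 4) ≠ 0
      rw [e1 1 2 3 4, q0]; exact neg_ne_zero.2 (cz _ u0)
  have a3 : ¬ (m0 ≠ 0 ∧ m1 ≠ 0 ∧ m2 ≠ 0) := by
    rintro ⟨u0, u1, u2⟩
    refine hR5A E (p ∘ ![3, 0, 1, 2, 4]) (hcl _) ?_ ?_ ?_ ?_
    · show mn (p 3) (p 0) (p 1) (p 2) ≠ 0
      rw [e1 0 3 1 2, e2 0 1 3 2, e3 0 1 2 3, neg_neg]; exact neg_ne_zero.2 n4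
    · show mn (p 3) (p 0) (p 1) (p 4) ≠ 0
      rw [e1 0 3 1 4, e2 0 1 3 4, neg_neg, q2]; exact cz _ u2
    · show mn (p 3) (p 0) (p 2) (p 4) ≠ 0
      rw [e1 0 3 2 4, e2 0 2 3 4, neg_neg, q1]; exact cz _ u1
    · show mn (p 3) (p 1) (p 2) (p 4) ≠ 0
      rw [e1 1 3 2 4, e2 1 2 3 4, neg_neg, q0]; exact cz _ u0
  have r0 : mn (p 4) (p 1) (p 2) (p 3) = -(m0 : ℝ) := by
    rw [e1 1 4 2 3, e2 1 2 4 3, e3 1 2 3 4, neg_neg, q0]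
  have r1 : mn (p 0) (p 4) (p 2) (p 3) = (m1 : ℝ) := by
    rw [e2 0 2 4 3, e3 0 2 3 4, neg_neg, q1]
  have r2 : mn (p 0) (p 1) (p 4) (p 3) = -(m2 : ℝ) := by
    rw [e3 0 1 3 4, q2]
  rw [r0, r1, r2, q3]
  have hfin := r5_par m0 m1 m2 m3 m4 h0 h1 h2 h3 k4 hs a0 a1 a2 a3
  simp only [ne_eq, neg_eq_zero, Int.cast_eq_zero]
  exact hfin

end Pool.Agent.H39.FL
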